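import Pool.Agent.H773.LK.Final

/-!
# Leaky periodic curves: the spectrum is purely absolutely continuous

For every `α > 0` and every periodic curve `γ` (injective, `C¹`, parametrised by arc length,
`γ (s + L) = γ s + ℓ`) the self-adjoint operator of the closure of the quadratic form
`∫ |∇ψ|² - α ∫ |ψ (γ s)|² ds` in `L²(ℝ²)` has purely absolutely continuous spectrum.
-/

set_option autoImplicit false

open MeasureTheory Filter Topology
open scoped SchwartzMap InnerProductSpace

noncomputable section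

namespace Pool.Agent.Results.MP_daec8e_mp.LeakyAC

/-- the plane `ℝ²` -/
abbrev Plane : Type := EuclideanSpace ℝ (Fin 2)

/-- `L²(ℝ²)` -/
abbrev L2Plane : Type := Lp ℂ 2 (volume : Measure Plane)

/-- the partial derivative `∂ψ/∂x_i` -/
def partialD (i : Fin 2) (ψ : 𝓢(Plane, ℂ)) (x : Plane) : ℂ :=
  fderiv ℝ ψ x (EuclideanSpace.single i 1)

/-- `∫ ⟨∇v, ∇ψ⟩ dx` -/
def gradForm (v ψ : 𝓢(Plane, ℂ)) : ℂ :=
  ∫ x, ∑ i : Fin 2, (starRingEnd ℂ) (partialD i v x) * partialD i ψ x

/-- `∫ conj (v (γ s)) ψ (γ s) ds` -/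
def traceForm (γ : ℝ → Plane) (v ψ : 𝓢(Plane, ℂ)) : ℂ :=
  ∫ s, (starRingEnd ℂ) (v (γ s)) * ψ (γ s)

/-- the sesquilinear form of `-Δ - α δ(x - Γ)` on Schwartz functions -/
def leakyForm (α : ℝ) (γ : ℝ → Plane) (v ψ : 𝓢(Plane, ℂ)) : ℂ :=
  gradForm v ψ - α * traceForm γ v ψ

/-- the class of a Schwartz function in `L²(ℝ²)` -/
def cls (ψ : 𝓢(Plane, ℂ)) : L2Plane := ψ.toLp 2

/-- `u` is in the domain of the operator of the closure of the form, and is mapped to `g`: some
sequence of Schwartz functions converges to `u` in `L²`, is Cauchy in the Dirichlet seminorm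
(so `u ∈ H¹` and the sequence converges to `u` in `H¹`), and the values `q(v, ψ n)`, which tend to
`q(v, u)`, tend to `⟨v, g⟩` for all Schwartz functions `v`. -/
def LeakyRel (α : ℝ) (γ : ℝ → Plane) (u g : L2Plane) : Prop :=
  ∃ ψ : ℕ → 𝓢(Plane, ℂ), Tendsto (fun n => cls (ψ n)) atTop (𝓝 u) ∧
    (∀ ε : ℝ, 0 < ε → ∃ N, ∀ m ≥ N, ∀ n ≥ N, ‖gradForm (ψ m - ψ n) (ψ m - ψ n)‖ < ε) ∧
    ∀ v : 𝓢(Plane, ℂ), Tendsto (fun n => leakyForm α γ v (ψ n)) atTop (𝓝 ⟪cls v, g⟫_ℂ)

/-- `γ` is the arc length parametrisation of a periodic curve. -/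
structure PeriodicCurve (γ : ℝ → Plane) : Prop where
  injective : Function.Injective γ
  contDiff : ContDiff ℝ 1 γ
  unit_speed : ∀ s, ‖deriv γ s‖ = 1
  periodic : ∃ (L : ℝ) (l : Plane), 0 < L ∧ l ≠ 0 ∧ ∀ s, γ (s + L) = γ s + l

section operators

variable {E : Type*} [NormedAddCommGroup E] [InnerProductSpace ℂ E]

/-- `μ` is the spectral measure of `f` for the operator `H`: `⟨f, (H - z)⁻¹ f⟩` is the Stieltjes
transform of the finite measure `μ` for all non-real `z`. -/
def IsSpectralMeasure (H : E →ₗ.[ℂ] E) (f : E) (μ : Measure ℝ) : Prop :=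
  IsFiniteMeasure μ ∧ ∀ z : ℂ, z.im ≠ 0 → ∃ u : H.domain, H u - z • (u : E) = f ∧
    ⟪f, (u : E)⟫_ℂ = ∫ t : ℝ, ((t : ℂ) - z)⁻¹ ∂μ

/-- The spectrum of `H` is purely absolutely continuous: every vector has exactly one spectral
measure, and all spectral measures are absolutely continuous. -/
def PurelyAC (H : E →ₗ.[ℂ] E) : Prop :=
  (∀ f : E, ∃! μ : Measure ℝ, IsSpectralMeasure H f μ) ∧
    ∀ (f : E) (μ : Measure ℝ), IsSpectralMeasure H f μ → μ ≪ volume

/-- The relation `R` is the graph of an operator `H` that is densely defined, self-adjoint, and has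
purely absolutely continuous spectrum. -/
def IsSelfAdjointPurelyAC [CompleteSpace E] (R : E → E → Prop) : Prop :=
  ∃ H : E →ₗ.[ℂ] E, (∀ u g : E, (u, g) ∈ H.graph ↔ R u g) ∧ Dense (H.domain : Set E) ∧
    IsSelfAdjoint H ∧ PurelyAC H

end operators

/-- the trace form is bounded by half the Dirichlet form plus a multiple of the norm, so that the
form is semibounded and its closure is defined on `H¹(ℝ²)` -/
def FormBounded (α : ℝ) (γ : ℝ → Plane) : Prop :=
  ∃ C : ℝ, ∀ ψ : 𝓢(Plane, ℂ), α * (traceForm γ ψ ψ).re ≤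
    1 / 2 * (gradForm ψ ψ).re + C * ‖cls ψ‖ ^ 2

/-- For every `α > 0` and every periodic curve: the trace form is relatively bounded with bound
less than one, and the operator of the closure of the form is densely defined, self-adjoint and has
purely absolutely continuous spectrum. -/
theorem result (α : ℝ) (hα : 0 < α) (γ : ℝ → Plane) (hγ : PeriodicCurve γ) :
    FormBounded α γ ∧ IsSelfAdjointPurelyAC (LeakyRel α γ) := by
  obtain ⟨h1, H, h2, h3, h4, h5, h6⟩ := Pool.Agent.H773.LK.main α hα γ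
    ⟨hγ.injective, hγ.contDiff, hγ.unit_speed, hγ.periodic⟩
  exact ⟨h1, H, h2, h3, h4, h5, h6⟩

end Pool.Agent.Results.MP_daec8e_mp.LeakyAC
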